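import Mathlib

/-!
# Rado's boundedness conjecture for coefficient tuples with at most two distinct values

For every `k` there is a constant `C` such that every integer `k`-tuple that fails Rado's condition
and takes at most two distinct values (or, more generally, has a prime `p > k` for which distinct
coefficients have distinct `p`-adic valuations) admits a `C`-colouring of the positive integers
without monochromatic solutions.
-/

namespace Pool.Agent.RadoB.Old.TwoValues

open Finset

/-- Rado's condition: some nonempty subset of the coefficients has sum zero. -/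
def RadoCondition {k : ℕ} (a : Fin k → ℤ) : Prop :=
  ∃ I : Finset (Fin k), I.Nonempty ∧ ∑ i ∈ I, a i = 0

/-- The colouring `χ` has a monochromatic solution of `a₁ x₁ + ... + a_k x_k = 0`. -/
def HasMonoSol {k r : ℕ} (a : Fin k → ℤ) (χ : ℕ+ → Fin r) : Prop :=
  ∃ x : Fin k → ℕ+, (∀ i j, χ (x i) = χ (x j)) ∧ ∑ i, a i * ((x i : ℕ) : ℤ) = 0

/-- `c(a₁, ..., a_k)`: the least number of colours of a colouring without monochromatic
solution. -/
noncomputable def c {k : ℕ} (a : Fin k → ℤ) : ℕ :=
  sInf {r : ℕ | ∃ χ : ℕ+ → Fin r, ¬ HasMonoSol a χ}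

/-! ### Greedy colouring of the natural numbers with forbidden differences -/

/-- Greedy colouring. -/
noncomputable def gre (D : Finset ℕ) (N : ℕ) (v : ℕ) : Fin (N + 1) :=
  Classical.epsilon (fun c : Fin (N + 1) =>
    ∀ d : {d : ℕ // d ∈ D ∧ 0 < d ∧ d ≤ v}, c ≠ gre D N (v - d.1))
  termination_by v
  decreasing_by
    have := d.2
    omega

lemma greedy (D : Finset ℕ) (N : ℕ) (hD : D.card ≤ N) :
    ∃ f : ℕ → Fin (N + 1), ∀ v, ∀ d ∈ D, 0 < d → f (v + d) ≠ f v := by
  classical
  refine ⟨gre D N, ?_⟩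
  have key : ∀ v, ∀ d ∈ D, 0 < d ∧ d ≤ v → gre D N v ≠ gre D N (v - d) := by
    intro v
    have hex : ∃ c : Fin (N + 1), ∀ d : {d : ℕ // d ∈ D ∧ 0 < d ∧ d ≤ v},
        c ≠ gre D N (v - d.1) := by
      by_contra hcon
      push Not at hcon
      have h1 : (univ : Finset (Fin (N + 1))) ⊆ D.image (fun d => gre D N (v - d)) := by
        intro c _
        obtain ⟨⟨d, hd, _⟩, hc⟩ := hcon c
        exact mem_image.mpr ⟨d, hd, hc.symm⟩
      have h2 := card_le_card h1
      have h3 : (D.image (fun d => gre D N (v - d))).card ≤ D.card := card_image_le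
      rw [card_univ, Fintype.card_fin] at h2
      omega
    intro d hd h0
    rw [gre]
    exact Classical.epsilon_spec hex ⟨d, hd, h0⟩
  intro v d hd h0
  have := key (v + d) d hd ⟨h0, by omega⟩
  rwa [Nat.add_sub_cancel] at this

/-! ### Valuations -/

section Val

variable (p : ℕ) [hp : Fact p.Prime]

/-- The part of `x` prime to `p`. -/
def unit (x : ℕ) : ℕ := x / p ^ padicValNat p x

omit hp in
lemma pow_mul_unit (x : ℕ) : p ^ padicValNat p x * unit p x = x :=
  Nat.mul_div_cancel' pow_padicValNat_dvd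

lemma not_dvd_unit {x : ℕ} (hx : x ≠ 0) : ¬ p ∣ unit p x := by
  intro h
  apply pow_succ_padicValNat_not_dvd (p := p) hx
  rw [pow_succ]
  conv_rhs => rw [← pow_mul_unit p x]
  exact Nat.mul_dvd_mul_left _ h

/-- A cell function such that sums of at most `k` units in the same cell are not divisible by
`p ^ (T + 1)`. -/
def UnitOK (k T : ℕ) {r : ℕ} (cell : ℕ → Fin r) : Prop :=
  ∀ (J : Finset (Fin k)) (u : Fin k → ℕ), J.Nonempty → (∀ i ∈ J, ¬ p ∣ u i) →
    (∀ i ∈ J, ∀ j ∈ J, cell (u i) = cell (u j)) → ¬ p ^ (T + 1) ∣ ∑ i ∈ J, u i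

/-- Large primes. -/
lemma cell_large {k : ℕ} (hk : k < p) :
    ∃ cell : ℕ → Fin (k.factorial), UnitOK p k 0 cell := by
  have hp0 : 0 < p := hp.out.pos
  have hf : 0 < k.factorial := Nat.factorial_pos k
  refine ⟨fun u => ⟨k.factorial * (u % p) / p, ?_⟩, ?_⟩
  · apply Nat.div_lt_of_lt_mul
    rw [mul_comm]
    exact Nat.mul_lt_mul_of_pos_right (Nat.mod_lt _ hp0) hf
  · intro J u hJ hu hcell
    rw [zero_add, pow_one]
    intro hdvd
    obtain ⟨i0, hi0⟩ := hJ
    set c := k.factorial * (u i0 % p) / p with hc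
    have hlow : ∀ i ∈ J, c * p ≤ k.factorial * (u i % p) ∧
        k.factorial * (u i % p) < (c + 1) * p := by
      intro i hi
      have h1 : k.factorial * (u i % p) / p = c := by
        have := hcell i hi i0 hi0
        exact congrArg Fin.val this
      constructor
      · rw [← h1]
        exact Nat.div_mul_le_self _ _
      · rw [← h1]
        exact Nat.lt_mul_of_div_lt (Nat.lt_succ_self _) hp0
    have hJk : J.card ≤ k := by simpa using card_le_univ J
    have hJ0 : 0 < J.card := card_pos.mpr ⟨i0, hi0⟩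
    obtain ⟨M, hM⟩ : J.card ∣ k.factorial := Nat.dvd_factorial hJ0 hJk
    -- sum of the residues
    have hdvd' : p ∣ ∑ i ∈ J, u i % p := by
      rw [Nat.dvd_iff_mod_eq_zero] at hdvd ⊢
      rwa [sum_nat_mod] at hdvd
    obtain ⟨N, hN⟩ := hdvd'
    have hs1 : J.card * (c * p) ≤ k.factorial * (p * N) := by
      rw [← hN, mul_sum, ← smul_eq_mul, ← sum_const]
      exact sum_le_sum (fun i hi => (hlow i hi).1)
    have hs2 : k.factorial * (p * N) < J.card * ((c + 1) * p) := by
      rw [← hN, mul_sum, ← smul_eq_mul, ← sum_const]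
      exact sum_lt_sum_of_nonempty ⟨i0, hi0⟩ (fun i hi => (hlow i hi).2)
    have e1 : c ≤ M * N := by
      have h : (J.card * p) * c ≤ (J.card * p) * (M * N) := by
        calc (J.card * p) * c = J.card * (c * p) := by ring
          _ ≤ k.factorial * (p * N) := hs1
          _ = (J.card * p) * (M * N) := by rw [hM]; ring
      exact Nat.le_of_mul_le_mul_left h (Nat.mul_pos hJ0 hp0)
    have e2 : M * N < c + 1 := by
      have h : (J.card * p) * (M * N) < (J.card * p) * (c + 1) := by
        calc (J.card * p) * (M * N) = k.factorial * (p * N) := by rw [hM]; ring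
          _ < J.card * ((c + 1) * p) := hs2
          _ = (J.card * p) * (c + 1) := by ring
      exact Nat.lt_of_mul_lt_mul_left h
    have e3 : c = M * N := by omega
    -- equality in each term
    have hall : ∀ i ∈ J, c * p = k.factorial * (u i % p) := by
      have hsum : ∑ i ∈ J, c * p = ∑ i ∈ J, k.factorial * (u i % p) := by
        rw [sum_const, smul_eq_mul, ← mul_sum, hN, e3, hM]
        ring
      exact (sum_eq_sum_iff_of_le (fun i hi => (hlow i hi).1)).mp hsum
    have h0 := hall i0 hi0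
    have hd : p ∣ k.factorial * (u i0 % p) := by
      rw [← h0]; exact dvd_mul_left _ _
    rcases (hp.out.dvd_mul).mp hd with h | h
    · rw [hp.out.dvd_factorial] at h
      omega
    · exact hu i0 hi0 ((Nat.dvd_mod_iff (dvd_refl p)).mp h)

/-- Small primes. -/
lemma cell_small (k : ℕ) : ∃ cell : ℕ → Fin (p ^ (k + 1)), UnitOK p k k cell := by
  have hp0 : 0 < p := hp.out.pos
  refine ⟨fun u => ⟨u % p ^ (k + 1), Nat.mod_lt _ (pow_pos hp0 _)⟩, ?_⟩
  intro J u hJ hu hcell hdvd
  obtain ⟨i0, hi0⟩ := hJ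
  have hJk : J.card ≤ k := by simpa using card_le_univ J
  have hJ0 : 0 < J.card := card_pos.mpr ⟨i0, hi0⟩
  have h1 : ∑ i ∈ J, u i ≡ J.card * u i0 [MOD p ^ (k + 1)] := by
    have h2 : ∀ i ∈ J, u i ≡ u i0 [MOD p ^ (k + 1)] := by
      intro i hi
      exact congrArg Fin.val (hcell i hi i0 hi0)
    have h3 : ∑ i ∈ J, u i ≡ ∑ _i ∈ J, u i0 [MOD p ^ (k + 1)] := by
      unfold Nat.ModEq
      rw [sum_nat_mod, sum_nat_mod J _ (fun _ => u i0)]
      congr 1
      exact sum_congr rfl h2
    rwa [sum_const, smul_eq_mul] at h3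
  have h4 : p ^ (k + 1) ∣ J.card * u i0 := (h1.dvd_iff (dvd_refl _)).mp hdvd
  have hcop : Nat.Coprime (p ^ (k + 1)) (u i0) :=
    Nat.Coprime.pow_left _ ((Nat.Prime.coprime_iff_not_dvd hp.out).mpr (hu i0 hi0))
  have h5 : p ^ (k + 1) ∣ J.card := hcop.dvd_of_dvd_mul_right h4
  have h6 := Nat.le_of_dvd hJ0 h5
  have h7 : 2 ^ (k + 1) ≤ p ^ (k + 1) := Nat.pow_le_pow_left hp.out.two_le _
  have h8 : k + 1 < 2 ^ (k + 1) := Nat.lt_two_pow_self
  omega

/-- Valuation of a sum in a block. -/
lemma block {k T r : ℕ} {cell : ℕ → Fin r} (hcell : UnitOK p k T cell) (I : Finset (Fin k))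
    (hI : I.Nonempty) (x : Fin k → ℕ) (hx : ∀ i, x i ≠ 0)
    (hc : ∀ i ∈ I, ∀ j ∈ I, cell (unit p (x i)) = cell (unit p (x j)))
    (hv : ∀ i ∈ I, ∀ j ∈ I, padicValNat p (x i) < padicValNat p (x j) →
      padicValNat p (x i) + T < padicValNat p (x j)) :
    ∃ i ∈ I, ∃ e ≤ T, padicValNat p (∑ j ∈ I, x j) = padicValNat p (x i) + e := by
  obtain ⟨i, hi, hmin⟩ := exists_min_image I (fun j => padicValNat p (x j)) hI
  set μ := padicValNat p (x i) with hμ
  have hS : ∑ j ∈ I, x j ≠ 0 := by
    intro h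
    rw [sum_eq_zero_iff] at h
    exact hx i (h i hi)
  have h1 : p ^ μ ∣ ∑ j ∈ I, x j := by
    apply dvd_sum
    intro j hj
    exact (pow_dvd_pow p (hmin j hj)).trans pow_padicValNat_dvd
  have h2 : ¬ p ^ (μ + T + 1) ∣ ∑ j ∈ I, x j := by
    intro hd
    set J := I.filter (fun j => padicValNat p (x j) = μ) with hJ
    have hsplit : ∑ j ∈ I, x j = ∑ j ∈ J, x j +
        ∑ j ∈ I.filter (fun j => ¬ padicValNat p (x j) = μ), x j :=
      (sum_filter_add_sum_filter_not I _ _).symm
    have h3 : p ^ (μ + T + 1) ∣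
        ∑ j ∈ I.filter (fun j => ¬ padicValNat p (x j) = μ), x j := by
      apply dvd_sum
      intro j hj
      rw [mem_filter] at hj
      have h4 := hmin j hj.1
      have h5 := hv i hi j hj.1 (by omega)
      exact (pow_dvd_pow p (by omega)).trans pow_padicValNat_dvd
    rw [hsplit] at hd
    have h6 : p ^ (μ + T + 1) ∣ ∑ j ∈ J, x j := (Nat.dvd_add_left h3).mp hd
    have h7 : ∑ j ∈ J, x j = p ^ μ * ∑ j ∈ J, unit p (x j) := by
      rw [mul_sum]
      apply sum_congr rfl
      intro j hj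
      rw [hJ, mem_filter] at hj
      conv_lhs => rw [← pow_mul_unit p (x j), hj.2]
    rw [h7, add_assoc, pow_add] at h6
    have h8 := Nat.dvd_of_mul_dvd_mul_left (pow_pos hp.out.pos μ) h6
    refine hcell J (fun j => unit p (x j)) ⟨i, ?_⟩ ?_ ?_ h8
    · rw [hJ, mem_filter]; exact ⟨hi, rfl⟩
    · intro j _; exact not_dvd_unit p (hx j)
    · intro j hj j' hj'
      exact hc j (mem_filter.mp hj).1 j' (mem_filter.mp hj').1
  have h3 : μ ≤ padicValNat p (∑ j ∈ I, x j) := (padicValNat_dvd_iff_le hS).mp h1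
  have h4 : padicValNat p (∑ j ∈ I, x j) < μ + T + 1 := by
    by_contra hcon
    rw [not_lt] at hcon
    exact h2 ((padicValNat_dvd_iff_le hS).mpr hcon)
  exact ⟨i, hi, padicValNat p (∑ j ∈ I, x j) - μ, by omega, by omega⟩

/-- In a vanishing sum of nonzero integers two terms have the same valuation. -/
lemma two_min (B : Finset ℤ) (hB : B.Nonempty) (y : ℤ → ℤ) (hy : ∀ b ∈ B, y b ≠ 0)
    (hs : ∑ b ∈ B, y b = 0) :
    ∃ b ∈ B, ∃ b' ∈ B, b ≠ b' ∧ padicValInt p (y b) = padicValInt p (y b') := by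
  obtain ⟨b, hb, hmin⟩ := exists_min_image B (fun b => padicValInt p (y b)) hB
  by_contra hcon
  push Not at hcon
  have h1 : ∀ b' ∈ B.erase b, ((p ^ (padicValInt p (y b) + 1) : ℕ) : ℤ) ∣ y b' := by
    intro b' hb'
    rw [mem_erase] at hb'
    have h2 := hmin b' hb'.2
    have h3 := hcon b hb b' hb'.2 (Ne.symm hb'.1)
    push_cast
    rw [padicValInt_dvd_iff]
    right
    omega
  have h2 : ((p ^ (padicValInt p (y b) + 1) : ℕ) : ℤ) ∣ y b := by
    have h3 : y b = - ∑ b' ∈ B.erase b, y b' := by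
      rw [← add_sum_erase B y hb] at hs
      linarith
    have h4 : ((p ^ (padicValInt p (y b) + 1) : ℕ) : ℤ) ∣ - ∑ b' ∈ B.erase b, y b' :=
      (dvd_neg).mpr (dvd_sum h1)
    rwa [← h3] at h4
  push_cast at h2
  rw [padicValInt_dvd_iff] at h2
  rcases h2 with h | h
  · exact hy b hb h
  · omega

/-- **Main lemma**: a colouring from a separating prime. -/
lemma main_color {k T r : ℕ} (hk : 0 < k) {cell : ℕ → Fin r} (hcell : UnitOK p k T cell)
    (a : Fin k → ℤ) (ha : ∀ i, a i ≠ 0)
    (hsep : ∀ i j, a i ≠ a j → padicValInt p (a i) + T < padicValInt p (a j) ∨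
      padicValInt p (a j) + T < padicValInt p (a i)) :
    ∃ χ : ℕ+ → Fin (r * (T + k * k * ((T + 1) * (T + 1)) + 1)), ¬ HasMonoSol a χ := by
  classical
  let D2 : Finset ℕ := (univ : Finset ((Fin k × Fin k) × (Fin (T + 1) × Fin (T + 1)))).image
    (fun q => (padicValInt p (a q.1.2) + q.2.2) - (padicValInt p (a q.1.1) + q.2.1))
  let D : Finset ℕ := Icc 1 T ∪ D2
  have hD : D.card ≤ T + k * k * ((T + 1) * (T + 1)) := by
    have h1 : D.card ≤ (Icc 1 T).card + D2.card := card_union_le _ _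
    have h2 : D2.card ≤
        (univ : Finset ((Fin k × Fin k) × (Fin (T + 1) × Fin (T + 1)))).card := card_image_le
    rw [card_univ] at h2
    simp only [Fintype.card_prod, Fintype.card_fin] at h2
    rw [Nat.card_Icc] at h1
    omega
  obtain ⟨f, hf⟩ := greedy D _ hD
  refine ⟨fun x => finProdFinEquiv (cell (unit p x), f (padicValNat p x)), ?_⟩
  rintro ⟨x, hmono, hsum⟩
  have hx : ∀ i, ((x i : ℕ)) ≠ 0 := fun i => (x i).ne_zero
  have hcol : ∀ i j, cell (unit p (x i)) = cell (unit p (x j)) ∧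
      f (padicValNat p (x i)) = f (padicValNat p (x j)) := by
    intro i j
    have := finProdFinEquiv.injective (hmono i j)
    exact Prod.ext_iff.mp this
  -- forbidden differences
  have hforb : ∀ i j, ∀ d ∈ D, 0 < d → padicValNat p (x j) ≠ padicValNat p (x i) + d := by
    intro i j d hd h0 h
    have := hf (padicValNat p (x i)) d hd h0
    rw [← h] at this
    exact this (hcol j i).2
  have hgap : ∀ i j, padicValNat p (x i) < padicValNat p (x j) →
      padicValNat p (x i) + T < padicValNat p (x j) := by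
    intro i j hij
    by_contra hcon
    refine hforb i j (padicValNat p (x j) - padicValNat p (x i)) ?_ (by omega) (by omega)
    apply mem_union_left
    rw [mem_Icc]
    omega
  -- group by coefficient
  let B : Finset ℤ := univ.image a
  let X : ℤ → ℕ := fun b => ∑ i ∈ univ.filter (fun i => a i = b), (x i : ℕ)
  have hne : ∀ b ∈ B, (univ.filter (fun i => a i = b)).Nonempty := by
    intro b hb
    obtain ⟨i, _, hi⟩ := mem_image.mp hb
    exact ⟨i, mem_filter.mpr ⟨mem_univ _, hi⟩⟩
  have hXpos : ∀ b ∈ B, X b ≠ 0 := by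
    intro b hb h
    obtain ⟨i, hi⟩ := hne b hb
    rw [sum_eq_zero_iff] at h
    exact hx i (h i hi)
  have hb0 : ∀ b ∈ B, b ≠ 0 := by
    intro b hb
    obtain ⟨i, _, hi⟩ := mem_image.mp hb
    rw [← hi]
    exact ha i
  have hgroup : ∑ b ∈ B, b * (X b : ℤ) = 0 := by
    rw [← hsum, ← sum_fiberwise_of_maps_to (s := univ) (t := B) (g := a)
      (fun i _ => mem_image_of_mem a (mem_univ i))]
    apply sum_congr rfl
    intro b _
    simp only [X]
    push_cast
    rw [mul_sum]
    apply sum_congr rfl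
    intro i hi
    rw [(mem_filter.mp hi).2]
  have hBne : B.Nonempty := ⟨a ⟨0, hk⟩, mem_image_of_mem a (mem_univ _)⟩
  obtain ⟨b, hb, b', hb', hbb, hval⟩ := two_min p B hBne (fun b => b * (X b : ℤ))
    (fun b hb => mul_ne_zero (hb0 b hb) (by exact_mod_cast hXpos b hb)) hgroup
  rw [padicValInt.mul (hb0 b hb) (by exact_mod_cast hXpos b hb),
    padicValInt.mul (hb0 b' hb') (by exact_mod_cast hXpos b' hb')] at hval
  simp only [padicValInt.of_nat] at hval
  obtain ⟨i, hi, e, he, hvi⟩ := block p hcell _ (hne b hb) (fun i => (x i : ℕ)) hx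
    (fun i _ j _ => (hcol i j).1) (fun i _ j _ => hgap i j)
  obtain ⟨j, hj, e', he', hvj⟩ := block p hcell _ (hne b' hb') (fun i => (x i : ℕ)) hx
    (fun i _ j _ => (hcol i j).1) (fun i _ j _ => hgap i j)
  have hai : a i = b := (mem_filter.mp hi).2
  have haj : a j = b' := (mem_filter.mp hj).2
  have hvi' : padicValNat p (X b) = padicValNat p (x i) + e := hvi
  have hvj' : padicValNat p (X b') = padicValNat p (x j) + e' := hvj
  rw [hvi', hvj', ← hai, ← haj] at hval
  have hsep' := hsep i j (by rw [hai, haj]; exact hbb)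
  -- membership in the set of forbidden differences
  have hmem : ∀ (i j : Fin k) (e e' : ℕ), e ≤ T → e' ≤ T →
      (padicValInt p (a j) + e') - (padicValInt p (a i) + e) ∈ D := by
    intro i j e e' he he'
    apply mem_union_right
    exact mem_image.mpr ⟨((i, j), (⟨e, by omega⟩, ⟨e', by omega⟩)), mem_univ _, rfl⟩
  rcases lt_trichotomy (padicValNat p (x i)) (padicValNat p (x j)) with h | h | h
  · exact hforb i j _ (hmem j i e' e he' he) (by omega) (by omega)
  · omega
  · exact hforb j i _ (hmem i j e e' he he') (by omega) (by omega)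

end Val

/-- Monotonicity in the number of colours. -/
lemma color_mono {k r s : ℕ} (h : r ≤ s) (a : Fin k → ℤ)
    (hr : ∃ χ : ℕ+ → Fin r, ¬ HasMonoSol a χ) : ∃ χ : ℕ+ → Fin s, ¬ HasMonoSol a χ := by
  obtain ⟨χ, hχ⟩ := hr
  refine ⟨fun x => Fin.castLE h (χ x), ?_⟩
  rintro ⟨x, hx, hs⟩
  exact hχ ⟨x, fun i j => Fin.castLE_injective h (hx i j), hs⟩

/-- Proportional to bounded coefficients. -/
lemma bounded_color {k : ℕ} (hk : 0 < k) (P : ℕ) [hP : Fact P.Prime] (a : Fin k → ℤ) (g : ℤ)
    (α : Fin k → ℤ) (haα : ∀ i, a i = g * α i) (hrado : ¬ RadoCondition a) (H : ℕ)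
    (hα : ∀ i, |α i| ≤ H) (hPH : k * H < P) :
    ∃ χ : ℕ+ → Fin P, ¬ HasMonoSol a χ := by
  classical
  refine ⟨fun x => ⟨unit P x % P, Nat.mod_lt _ hP.out.pos⟩, ?_⟩
  rintro ⟨x, hmono, hsum⟩
  have hx : ∀ i, ((x i : ℕ)) ≠ 0 := fun i => (x i).ne_zero
  have hg : g ≠ 0 := by
    rintro rfl
    apply hrado
    refine ⟨{⟨0, hk⟩}, singleton_nonempty _, ?_⟩
    rw [sum_singleton, haα, zero_mul]
  have hsum' : ∑ i, α i * ((x i : ℕ) : ℤ) = 0 := by
    have h1 : g * ∑ i, α i * ((x i : ℕ) : ℤ) = 0 := by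
      rw [mul_sum, ← hsum]
      apply sum_congr rfl
      intro i _
      rw [haα]; ring
    exact (mul_eq_zero.mp h1).resolve_left hg
  obtain ⟨i0, _, hmin⟩ := exists_min_image univ (fun i => padicValNat P (x i))
    ⟨(⟨0, hk⟩ : Fin k), mem_univ _⟩
  set μ := padicValNat P (x i0) with hμ
  set J := univ.filter (fun i => padicValNat P (x i) = μ) with hJ
  have hi0J : i0 ∈ J := by rw [hJ, mem_filter]; exact ⟨mem_univ _, rfl⟩
  have hsplit : ∑ i ∈ J, α i * ((x i : ℕ) : ℤ) +
      ∑ i ∈ univ.filter (fun i => ¬ padicValNat P (x i) = μ), α i * ((x i : ℕ) : ℤ) = 0 := by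
    rw [hJ, sum_filter_add_sum_filter_not, hsum']
  have h3 : ((P ^ (μ + 1) : ℕ) : ℤ) ∣
      ∑ i ∈ univ.filter (fun i => ¬ padicValNat P (x i) = μ), α i * ((x i : ℕ) : ℤ) := by
    apply dvd_sum
    intro i hi
    rw [mem_filter] at hi
    have h4 := hmin i (mem_univ i)
    apply Dvd.dvd.mul_left
    rw [Int.natCast_dvd_natCast]
    exact (pow_dvd_pow P (by omega)).trans pow_padicValNat_dvd
  have h5 : ((P ^ (μ + 1) : ℕ) : ℤ) ∣ ∑ i ∈ J, α i * ((x i : ℕ) : ℤ) := by
    have h6 : ∑ i ∈ J, α i * ((x i : ℕ) : ℤ) =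
      -∑ i ∈ univ.filter (fun i => ¬ padicValNat P (x i) = μ), α i * ((x i : ℕ) : ℤ) := by
      linarith
    rw [h6]
    exact (dvd_neg).mpr h3
  have h7 : ∑ i ∈ J, α i * ((x i : ℕ) : ℤ) =
      ((P ^ μ : ℕ) : ℤ) * ∑ i ∈ J, α i * (unit P (x i) : ℤ) := by
    rw [mul_sum]
    apply sum_congr rfl
    intro i hi
    rw [hJ, mem_filter] at hi
    have h8 : ((x i : ℕ) : ℤ) = ((P ^ μ : ℕ) : ℤ) * (unit P (x i) : ℤ) := by
      rw [← hi.2]
      exact_mod_cast (pow_mul_unit P (x i)).symm
    rw [h8]; ring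
  rw [h7, pow_succ, Nat.cast_mul] at h5
  have hPμ : ((P ^ μ : ℕ) : ℤ) ≠ 0 := by
    exact_mod_cast (pow_pos hP.out.pos μ).ne'
  have h8 : (P : ℤ) ∣ ∑ i ∈ J, α i * (unit P (x i) : ℤ) :=
    (mul_dvd_mul_iff_left hPμ).mp h5
  have h9 : (P : ℤ) ∣ (∑ i ∈ J, α i) * (unit P (x i0) : ℤ) := by
    have h10 : (P : ℤ) ∣ ∑ i ∈ J, α i * (unit P (x i) : ℤ) -
        (∑ i ∈ J, α i) * (unit P (x i0) : ℤ) := by
      rw [sum_mul, ← sum_sub_distrib]
      apply dvd_sum
      intro i _
      rw [← mul_sub]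
      apply Dvd.dvd.mul_left
      have h11 : unit P (x i0) ≡ unit P (x i) [MOD P] := congrArg Fin.val (hmono i0 i)
      exact (Nat.modEq_iff_dvd).mp h11
    exact (dvd_sub_right h8).mp h10
  have hPprime : Prime (P : ℤ) := Nat.prime_iff_prime_int.mp hP.out
  rcases hPprime.dvd_or_dvd h9 with h | h
  · -- the subset sum is small and divisible by `P`
    have habs : |∑ i ∈ J, α i| < P := by
      calc |∑ i ∈ J, α i| ≤ ∑ i ∈ J, |α i| := abs_sum_le_sum_abs _ _
        _ ≤ ∑ i ∈ J, (H : ℤ) := sum_le_sum (fun i _ => hα i)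
        _ = J.card * H := by rw [sum_const, nsmul_eq_mul]
        _ ≤ k * H := by
            have : J.card ≤ k := by simpa using card_le_univ J
            gcongr
        _ < P := by exact_mod_cast hPH
    have h0 : ∑ i ∈ J, α i = 0 := Int.eq_zero_of_abs_lt_dvd h habs
    apply hrado
    refine ⟨J, ⟨i0, hi0J⟩, ?_⟩
    rw [sum_congr rfl (fun i _ => haα i), ← mul_sum, h0, mul_zero]
  · exact not_dvd_unit P (hx i0) (by exact_mod_cast h)

/-- If all valuations of `s` and `t` are close, then `s` and `t` are proportional to bounded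
integers. -/
lemma ratio_bound {k : ℕ} {s t : ℤ} (hs : s ≠ 0)
    (h1 : ∀ p : ℕ, p.Prime → k < p → padicValInt p s = padicValInt p t)
    (h2 : ∀ p : ℕ, p.Prime → p ≤ k → padicValInt p s ≤ padicValInt p t + k) :
    |s / (Int.gcd s t : ℤ)| ≤ ((k.factorial ^ k : ℕ) : ℤ) := by
  have hg0 : Int.gcd s t ≠ 0 := fun h => hs (Int.gcd_eq_zero_iff.mp h).1
  obtain ⟨s', hs'⟩ := Int.gcd_dvd_left (a := s) (b := t)
  obtain ⟨t', ht'⟩ := Int.gcd_dvd_right (a := s) (b := t)
  set g : ℕ := Int.gcd s t with hg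
  have hgz : (g : ℤ) ≠ 0 := by exact_mod_cast hg0
  have hs'0 : s' ≠ 0 := by
    rintro rfl
    rw [mul_zero] at hs'
    exact hs hs'
  have hdiv : s / (g : ℤ) = s' := by
    rw [hs']
    exact Int.mul_ediv_cancel_left _ hgz
  rw [hdiv]
  -- coprimality
  have hcop : Int.gcd s' t' = 1 := by
    have h3 : Int.gcd s t = g * Int.gcd s' t' := by
      conv_lhs => rw [hs', ht']
      rw [Int.gcd_mul_left, Int.natAbs_natCast]
    have h4 : g * 1 = g * Int.gcd s' t' := by rw [mul_one, ← h3]
    exact (Nat.eq_of_mul_eq_mul_left (Nat.pos_of_ne_zero hg0) h4).symm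
  have hdvd : s'.natAbs ∣ k.factorial ^ k := by
    rw [← Nat.factorization_prime_le_iff_dvd (Int.natAbs_ne_zero.mpr hs'0)
      (pow_ne_zero _ (Nat.factorial_ne_zero k))]
    intro p hp
    have : Fact p.Prime := ⟨hp⟩
    rw [Nat.factorization_def _ hp, Nat.factorization_def _ hp]
    by_cases hps : p ∣ s'.natAbs
    swap
    · rw [padicValNat.eq_zero_of_not_dvd hps]
      exact Nat.zero_le _
    have hpt : ¬ (p : ℤ) ∣ t' := by
      intro h
      have h5 : p ∣ Int.gcd s' t' := by
        rw [Int.gcd_def]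
        exact Nat.dvd_gcd hps (Int.natCast_dvd.mp h)
      rw [hcop] at h5
      exact hp.one_lt.ne' (Nat.dvd_one.mp h5)
    have ht'0 : t' ≠ 0 := by
      rintro rfl
      exact hpt (dvd_zero _)
    have hvs : padicValInt p s = padicValNat p g + padicValInt p s' := by
      conv_lhs => rw [hs']
      rw [padicValInt.mul hgz hs'0, padicValInt.of_nat]
    have hvt : padicValInt p t = padicValNat p g := by
      conv_lhs => rw [ht']
      rw [padicValInt.mul hgz ht'0, padicValInt.of_nat,
        padicValInt.eq_zero_of_not_dvd hpt, add_zero]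
    have hvs' : padicValInt p s' = padicValNat p s'.natAbs := rfl
    have hpos : 1 ≤ padicValNat p s'.natAbs :=
      one_le_padicValNat_of_dvd (Int.natAbs_ne_zero.mpr hs'0) hps
    by_cases hpk : p ≤ k
    · have h6 := h2 p hp hpk
      have h7 : padicValNat p s'.natAbs ≤ k := by omega
      refine h7.trans ?_
      rw [padicValNat.pow]
      have h8 : 1 ≤ padicValNat p k.factorial := by
        rw [Nat.one_le_iff_ne_zero, ← Nat.pos_iff_ne_zero]
        exact Nat.pos_of_ne_zero (by
          intro h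
          have := (hp.dvd_factorial (n := k)).mpr hpk
          rw [padicValNat.eq_zero_iff] at h
          rcases h with h | h | h
          · exact hp.ne_one h
          · exact Nat.factorial_ne_zero k h
          · exact h this)
      calc k = k * 1 := (mul_one k).symm
        _ ≤ k * padicValNat p k.factorial := Nat.mul_le_mul_left k h8
    · have h6 := h1 p hp (by omega)
      omega
  have h9 := Nat.le_of_dvd (pow_pos (Nat.factorial_pos k) k) hdvd
  rw [Int.abs_eq_natAbs]
  exact_mod_cast h9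

/-- **Main result.** For every `k ≥ 1` there is a constant `C` such that every integer `k`-tuple
`a` failing Rado's condition has `c(a) ≤ C`, provided that `a` takes at most two distinct values,
or that for some prime `p > k` distinct coefficients have distinct `p`-adic valuations. -/
theorem result (k : ℕ) (hk : 1 ≤ k) :
    ∃ C : ℕ, ∀ a : Fin k → ℤ, ¬ RadoCondition a →
      ((∃ s t : ℤ, ∀ i, a i = s ∨ a i = t) ∨
        (∃ p : ℕ, p.Prime ∧ k < p ∧
          ∀ i j, a i ≠ a j → padicValInt p (a i) ≠ padicValInt p (a j))) →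
      (∃ χ : ℕ+ → Fin C, ¬ HasMonoSol a χ) ∧ c a ≤ C := by
  classical
  obtain ⟨P, hPge, hPprime⟩ := Nat.exists_infinite_primes (k * k.factorial ^ k + 1)
  have : Fact P.Prime := ⟨hPprime⟩
  set C1 := k.factorial * (0 + k * k * ((0 + 1) * (0 + 1)) + 1) with hC1
  set C2 := k ^ (k + 1) * (k + k * k * ((k + 1) * (k + 1)) + 1) with hC2
  refine ⟨C1 + C2 + P, ?_⟩
  intro a hrado hcase
  have ha : ∀ i, a i ≠ 0 := by
    intro i h
    exact hrado ⟨{i}, singleton_nonempty _, by rw [sum_singleton, h]⟩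
  have hcol : ∃ χ : ℕ+ → Fin (C1 + C2 + P), ¬ HasMonoSol a χ := by
    -- separating large primes
    have hlarge : ∀ p : ℕ, p.Prime → k < p →
        (∀ i j, a i ≠ a j → padicValInt p (a i) ≠ padicValInt p (a j)) →
        ∃ χ : ℕ+ → Fin (C1 + C2 + P), ¬ HasMonoSol a χ := by
      intro p hp hkp hsep
      have : Fact p.Prime := ⟨hp⟩
      obtain ⟨cell, hcell⟩ := cell_large p hkp
      have h1 := main_color p (by omega) hcell a ha (by
        intro i j hij
        have := hsep i j hij
        omega)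
      exact color_mono (by omega) a h1
    rcases hcase with ⟨s, t, hst⟩ | ⟨p, hp, hkp, hsep⟩
    swap
    · exact hlarge p hp hkp hsep
    by_cases hconst : ∀ i j, a i = a j
    · obtain ⟨p, hpge, hp⟩ := Nat.exists_infinite_primes (k + 1)
      exact hlarge p hp (by omega) (fun i j hij => (hij (hconst i j)).elim)
    push Not at hconst
    obtain ⟨i0, j0, hij0⟩ := hconst
    -- rename the two values
    obtain ⟨s, t, hs, ht, hst, hval⟩ : ∃ s t : ℤ, s ≠ 0 ∧ t ≠ 0 ∧ s ≠ t ∧
        ∀ i, a i = s ∨ a i = t := by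
      refine ⟨a i0, a j0, ha i0, ha j0, hij0, ?_⟩
      intro i
      rcases hst i with h | h <;> rcases hst i0 with h' | h' <;> rcases hst j0 with h'' | h''
      · left; rw [h, h']
      · left; rw [h, h']
      · right; rw [h, h'']
      · exact (hij0 (by rw [h', h''])).elim
      · exact (hij0 (by rw [h', h''])).elim
      · right; rw [h, h'']
      · left; rw [h, h']
      · left; rw [h, h']
    by_cases hB1 : ∃ p : ℕ, p.Prime ∧ k < p ∧ padicValInt p s ≠ padicValInt p t
    · obtain ⟨p, hp, hkp, hne⟩ := hB1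
      apply hlarge p hp hkp
      intro i j hij
      rcases hval i with h | h <;> rcases hval j with h' | h'
      · exact (hij (by rw [h, h'])).elim
      · rw [h, h']; exact hne
      · rw [h, h']; exact Ne.symm hne
      · exact (hij (by rw [h, h'])).elim
    push Not at hB1
    by_cases hB2 : ∃ p : ℕ, p.Prime ∧ p ≤ k ∧
        (padicValInt p s + k < padicValInt p t ∨ padicValInt p t + k < padicValInt p s)
    · obtain ⟨p, hp, hpk, hne⟩ := hB2
      have : Fact p.Prime := ⟨hp⟩
      obtain ⟨cell, hcell⟩ := cell_small p k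
      have h1 := main_color p (by omega) hcell a ha (by
        intro i j hij
        rcases hval i with h | h <;> rcases hval j with h' | h'
        · exact (hij (by rw [h, h'])).elim
        · rw [h, h']; exact hne
        · rw [h, h']; exact hne.symm
        · exact (hij (by rw [h, h'])).elim)
      refine color_mono ?_ a h1
      have h2 : p ^ (k + 1) * (k + k * k * ((k + 1) * (k + 1)) + 1) ≤ C2 :=
        Nat.mul_le_mul_right _ (Nat.pow_le_pow_left hpk _)
      omega
    push Not at hB2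
    -- bounded ratio
    have hr1 : |s / (Int.gcd s t : ℤ)| ≤ ((k.factorial ^ k : ℕ) : ℤ) :=
      ratio_bound hs hB1 (fun p hp hpk => (hB2 p hp hpk).2)
    have hr2 : |t / (Int.gcd s t : ℤ)| ≤ ((k.factorial ^ k : ℕ) : ℤ) := by
      rw [Int.gcd_comm]
      exact ratio_bound ht (fun p hp hkp => (hB1 p hp hkp).symm)
        (fun p hp hpk => (hB2 p hp hpk).1)
    have h1 := bounded_color (by omega) P a (Int.gcd s t : ℤ)
      (fun i => a i / (Int.gcd s t : ℤ)) (by
        intro i
        rcases hval i with h | h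
        · rw [h]; exact (Int.mul_ediv_cancel' (Int.gcd_dvd_left _ _)).symm
        · rw [h]; exact (Int.mul_ediv_cancel' (Int.gcd_dvd_right _ _)).symm)
      hrado (k.factorial ^ k) (by
        intro i
        rcases hval i with h | h
        · simp only [h]; exact hr1
        · simp only [h]; exact hr2) (by omega)
    exact color_mono (by omega) a h1
  exact ⟨hcol, Nat.sInf_le hcol⟩

end Pool.Agent.RadoB.Old.TwoValues
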